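import Mathlib
import Pool.Agent.H921GH.Main

/-!
# Gromov-Hausdorff distance between the unit ball and the unit sphere in all dimensions

The planar correspondence of `Pool.Agent.H921GH` is rotated around an axis; the distortion does not
grow, because the square root is concave.  The lower bound `1/2` comes from the centre of the ball.
-/

set_option autoImplicit false

namespace Pool.Agent.W128.GHAll

open Metric GromovHausdorff H921GH ComplexConjugate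

/-- One half of the interpolation. -/
theorem interp_half {A B a₁ a₂ b₁ b₂ c₁ c₂ δ : ℝ} (hB : 0 ≤ B)
    (ha1 : 0 ≤ a₁) (ha2 : 0 ≤ a₂)
    (hc1 : 0 ≤ c₁) (hc2 : 0 ≤ c₂) (hc : c₁ + c₂ = 1) (hδ : 0 ≤ δ)
    (hA : A ^ 2 = c₁ * a₁ ^ 2 + c₂ * a₂ ^ 2) (hBB : B ^ 2 = c₁ * b₁ ^ 2 + c₂ * b₂ ^ 2)
    (h1 : a₁ ≤ δ + b₁) (h2 : a₂ ≤ δ + b₂) : A ≤ δ + B := by
  have k1 : a₁ ^ 2 ≤ (δ + b₁) ^ 2 := by
    apply pow_le_pow_left₀ ha1 h1
  have k2 : a₂ ^ 2 ≤ (δ + b₂) ^ 2 := by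
    apply pow_le_pow_left₀ ha2 h2
  have k3 : c₁ * b₁ + c₂ * b₂ ≤ B := by
    apply abs_le_of_sq_le_sq' _ hB |>.2
    rw [hBB]
    have e : c₁ = 1 - c₂ := by linarith
    have : 0 ≤ c₁ * c₂ * (b₁ - b₂) ^ 2 := by positivity
    rw [e] at this ⊢
    nlinarith
  have k4 : A ^ 2 ≤ (δ + B) ^ 2 := by
    have m1 := mul_le_mul_of_nonneg_left k1 hc1
    have m2 := mul_le_mul_of_nonneg_left k2 hc2
    have m3 := mul_le_mul_of_nonneg_left k3 hδ
    have e : c₁ * δ ^ 2 + c₂ * δ ^ 2 = δ ^ 2 := by rw [← add_mul, hc, one_mul]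
    nlinarith
  exact abs_le_of_sq_le_sq' k4 (by linarith) |>.2

theorem interp {A B a₁ a₂ b₁ b₂ t δ : ℝ} (hA0 : 0 ≤ A) (hB : 0 ≤ B)
    (hb1 : 0 ≤ b₁) (hb2 : 0 ≤ b₂) (ha1 : 0 ≤ a₁) (ha2 : 0 ≤ a₂)
    (ht1 : -1 ≤ t) (ht2 : t ≤ 1) (hδ : 0 ≤ δ)
    (hA : A ^ 2 = (1 + t) / 2 * a₁ ^ 2 + (1 - t) / 2 * a₂ ^ 2)
    (hBB : B ^ 2 = (1 + t) / 2 * b₁ ^ 2 + (1 - t) / 2 * b₂ ^ 2)
    (h1 : |a₁ - b₁| ≤ δ) (h2 : |a₂ - b₂| ≤ δ) : |A - B| ≤ δ := by
  obtain ⟨h11, h12⟩ := abs_le.1 h1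
  obtain ⟨h21, h22⟩ := abs_le.1 h2
  have p := interp_half (A := A) (B := B) hB ha1 ha2 (by linarith : 0 ≤ (1 + t) / 2)
    (by linarith : 0 ≤ (1 - t) / 2) (by ring) hδ hA hBB (by linarith) (by linarith)
  have q := interp_half (A := B) (B := A) hA0 hb1 hb2 (by linarith : 0 ≤ (1 + t) / 2)
    (by linarith : 0 ≤ (1 - t) / 2) (by ring) hδ hBB hA (by linarith) (by linarith)
  rw [abs_le]
  constructor <;> linarith

section

variable {E : Type} [NormedAddCommGroup E] [InnerProductSpace ℝ E]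

/-- squared norm of a difference of two vectors in cylindrical coordinates -/
theorem norm_sq_cyl {e u v : E} (he : ‖e‖ = 1) (hu : ‖u‖ = 1) (hv : ‖v‖ = 1)
    (hue : (inner ℝ u e) = 0) (hve : (inner ℝ v e) = 0) (a b a' b' : ℝ) :
    ‖(a • e + b • u) - (a' • e + b' • v)‖ ^ 2 =
      (1 + (inner ℝ u v)) / 2 * ((a - a') ^ 2 + (b - b') ^ 2) +
      (1 - (inner ℝ u v)) / 2 * ((a - a') ^ 2 + (b + b') ^ 2) := by
  have e1 : (a • e + b • u) - (a' • e + b' • v) = (a - a') • e + (b • u - b' • v) := by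
    rw [sub_smul]; abel
  have hee : (inner ℝ e e) = 1 := by rw [real_inner_self_eq_norm_sq, he, one_pow]
  have huu : (inner ℝ u u) = 1 := by rw [real_inner_self_eq_norm_sq, hu, one_pow]
  have hvv : (inner ℝ v v) = 1 := by rw [real_inner_self_eq_norm_sq, hv, one_pow]
  have heu : (inner ℝ e u) = 0 := by rw [real_inner_comm]; exact hue
  have hev : (inner ℝ e v) = 0 := by rw [real_inner_comm]; exact hve
  have hvu : (inner ℝ v u) = (inner ℝ u v) := real_inner_comm _ _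
  rw [e1, ← real_inner_self_eq_norm_sq]
  simp only [inner_add_left, inner_add_right, inner_sub_left, inner_sub_right, inner_smul_left,
    inner_smul_right, hee, huu, hvv, heu, hev, hue, hve, hvu, RCLike.conj_to_real]
  ring

/-- the rotated correspondence -/
def Z (e : E) : Type := {p : ℂ × ℝ × E // T p.1 p.2.1 ∧ ‖p.2.2‖ = 1 ∧ (inner ℝ (p.2.2) e) = 0}

theorem norm_comb {e u : E} (he : ‖e‖ = 1) (hu : ‖u‖ = 1) (hue : (inner ℝ u e) = 0) (a b : ℝ) :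
    ‖a • e + b • u‖ ^ 2 = a ^ 2 + b ^ 2 := by
  have h := norm_sq_cyl he hu hu hue hue a b 0 0
  have huu : (inner ℝ u u) = 1 := by rw [real_inner_self_eq_norm_sq, hu, one_pow]
  rw [zero_smul, zero_smul, add_zero, sub_zero, huu] at h
  rw [h]; ring

theorem chord_sq_same (α α' : ℝ) : (2 * |Real.sin ((α - α') / 2)|) ^ 2 =
    (Real.cos α - Real.cos α') ^ 2 + (Real.sin α - Real.sin α') ^ 2 := by
  rw [mul_pow, sq_abs]
  have h1 : Real.cos (α - α') = 1 - 2 * Real.sin ((α - α') / 2) ^ 2 := by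
    have h2 := Real.sin_sq_eq_half_sub ((α - α') / 2)
    have e : 2 * ((α - α') / 2) = α - α' := by ring
    rw [e] at h2
    linarith
  rw [Real.cos_sub] at h1
  have h3 := Real.sin_sq_add_cos_sq α
  have h4 := Real.sin_sq_add_cos_sq α'
  nlinarith

theorem chord_sq_opp (α α' : ℝ) : (2 * |Real.sin ((α + α') / 2)|) ^ 2 =
    (Real.cos α - Real.cos α') ^ 2 + (Real.sin α + Real.sin α') ^ 2 := by
  have h := chord_sq_same α (-α')
  rw [Real.cos_neg, Real.sin_neg] at h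
  have e1 : α - -α' = α + α' := by ring
  have e2 : Real.sin α - -Real.sin α' = Real.sin α + Real.sin α' := by ring
  rw [e1, e2] at h
  exact h

variable (e : E) (he : ‖e‖ = 1)

noncomputable def Phi (p : Z e) : E := p.1.1.re • e + p.1.1.im • p.1.2.2
noncomputable def Psi (p : Z e) : E := Real.cos p.1.2.1 • e + Real.sin p.1.2.1 • p.1.2.2

include he in
theorem Phi_norm (p : Z e) : ‖Phi e p‖ ≤ 1 := by
  obtain ⟨⟨x, α, u⟩, hT, hu, hue⟩ := p
  have h := norm_comb he hu hue x.re x.im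
  have h1 := unit_sq (T_facts hT).1
  have h2 : ‖Phi e ⟨⟨x, α, u⟩, hT, hu, hue⟩‖ ^ 2 ≤ 1 := by
    show ‖x.re • e + x.im • u‖ ^ 2 ≤ 1
    rw [h]; exact h1
  exact (sq_le_one_iff₀ (norm_nonneg _)).1 h2

include he in
theorem Psi_norm (p : Z e) : ‖Psi e p‖ = 1 := by
  obtain ⟨⟨x, α, u⟩, hT, hu, hue⟩ := p
  have h := norm_comb he hu hue (Real.cos α) (Real.sin α)
  have h2 : ‖Psi e ⟨⟨x, α, u⟩, hT, hu, hue⟩‖ ^ 2 = 1 := by
    show ‖Real.cos α • e + Real.sin α • u‖ ^ 2 = 1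
    rw [h]; exact Real.cos_sq_add_sin_sq α
  exact (pow_eq_one_iff_of_nonneg (norm_nonneg _) two_ne_zero).1 h2

include he in
theorem key (p q : Z e) : |‖Phi e p - Phi e q‖ - ‖Psi e p - Psi e q‖| ≤ d := by
  obtain ⟨⟨x, α, u⟩, hT, hu, hue⟩ := p
  obtain ⟨⟨x', α', u'⟩, hT', hu', hue'⟩ := q
  simp only at hT hu hue hT' hu' hue'
  show |‖(x.re • e + x.im • u) - (x'.re • e + x'.im • u')‖ -
    ‖(Real.cos α • e + Real.sin α • u) - (Real.cos α' • e + Real.sin α' • u')‖| ≤ d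
  have hin : |(inner ℝ u u')| ≤ 1 := by
    have := abs_real_inner_le_norm u u'
    rwa [hu, hu', one_mul] at this
  obtain ⟨ht1, ht2⟩ := abs_le.1 hin
  have hd0 : 0 ≤ d := by linarith [d_gt]
  refine interp (a₁ := ‖x - x'‖) (a₂ := ‖x - conj x'‖)
    (b₁ := 2 * |Real.sin ((α - α') / 2)|) (b₂ := 2 * |Real.sin ((α + α') / 2)|)
    (t := (inner ℝ u u')) (norm_nonneg _) (norm_nonneg _) (by positivity) (by positivity)
    (norm_nonneg _) (norm_nonneg _) ht1 ht2 hd0 ?_ ?_ (key_same hT hT') (key_opp hT hT')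
  · rw [norm_sq_cyl he hu hu' hue hue', c_sq, c_sq']
  · rw [norm_sq_cyl he hu hu' hue hue', chord_sq_same, chord_sq_opp]

/-- decomposition of a vector along the axis -/
theorem exists_decomp (hu : ∃ u : E, ‖u‖ = 1 ∧ (inner ℝ u e) = 0) (he : ‖e‖ = 1) (x : E) :
    ∃ (u : E) (a b : ℝ), ‖u‖ = 1 ∧ (inner ℝ u e) = 0 ∧ 0 ≤ b ∧ x = a • e + b • u := by
  obtain ⟨u₀, hu₀, hue₀⟩ := hu
  have hee : (inner ℝ e e) = 1 := by rw [real_inner_self_eq_norm_sq, he, one_pow]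
  by_cases h : x - (inner ℝ x e) • e = 0
  · exact ⟨u₀, (inner ℝ x e), 0, hu₀, hue₀, le_rfl, by rw [zero_smul, add_zero]; exact sub_eq_zero.1 h⟩
  · have hn : ‖x - (inner ℝ x e) • e‖ ≠ 0 := norm_ne_zero_iff.2 h
    refine ⟨‖x - (inner ℝ x e) • e‖⁻¹ • (x - (inner ℝ x e) • e), (inner ℝ x e), ‖x - (inner ℝ x e) • e‖, ?_, ?_,
      norm_nonneg _, ?_⟩
    · rw [norm_smul, norm_inv, norm_norm, inv_mul_cancel₀ hn]
    · rw [real_inner_smul_left, inner_sub_left, real_inner_smul_left, hee]; ring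
    · rw [smul_smul, mul_inv_cancel₀ hn, one_smul]; abel

include he in
theorem Phi_surj (hu : ∃ u : E, ‖u‖ = 1 ∧ (inner ℝ u e) = 0) (x : E) (hx : ‖x‖ ≤ 1) :
    ∃ p : Z e, Phi e p = x := by
  obtain ⟨u, a, b, h1, h2, hb, rfl⟩ := exists_decomp e hu he x
  have hn := norm_comb he h1 h2 a b
  have hz : ‖(⟨a, b⟩ : ℂ)‖ ≤ 1 := by
    have h3 : ‖(⟨a, b⟩ : ℂ)‖ ^ 2 = ‖a • e + b • u‖ ^ 2 := by rw [norm_sq_coord, hn]
    have h4 : ‖a • e + b • u‖ ^ 2 ≤ 1 := (sq_le_one_iff₀ (norm_nonneg _)).2 hx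
    exact (sq_le_one_iff₀ (norm_nonneg _)).1 (h3.trans_le h4)
  exact ⟨⟨(⟨a, b⟩, w ⟨a, b⟩, u), T.main _ hz hb, h1, h2⟩, rfl⟩

include he in
theorem Psi_surj (hu : ∃ u : E, ‖u‖ = 1 ∧ (inner ℝ u e) = 0) (y : E) (hy : ‖y‖ = 1) :
    ∃ p : Z e, Psi e p = y := by
  obtain ⟨u, a, b, h1, h2, hb, rfl⟩ := exists_decomp e hu he y
  have hn := norm_comb he h1 h2 a b
  rw [hy, one_pow] at hn
  have ha1 : -1 ≤ a := by nlinarith
  have ha2 : a ≤ 1 := by nlinarith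
  obtain ⟨x, hx⟩ := exists_T (Real.arccos_nonneg a) (Real.arccos_le_pi a)
  refine ⟨⟨(x, Real.arccos a, u), hx, h1, h2⟩, ?_⟩
  show Real.cos (Real.arccos a) • e + Real.sin (Real.arccos a) • u = a • e + b • u
  rw [Real.cos_arccos ha1 ha2, Real.sin_arccos]
  have : √(1 - a ^ 2) = b := by
    rw [show 1 - a ^ 2 = b ^ 2 by linarith]
    exact Real.sqrt_sq hb
  rw [this]

end

/-- Upper bound in every dimension at least two. -/
theorem upper_all {E : Type} [NormedAddCommGroup E] [InnerProductSpace ℝ E]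
    [FiniteDimensional ℝ E] [Nonempty (sphere (0 : E) 1)]
    (e u : E) (he : ‖e‖ = 1) (hu : ‖u‖ = 1) (hue : @inner ℝ _ _ u e = 0) :
    ghDist (closedBall (0 : E) 1) (sphere (0 : E) 1) ≤ 1 - s := by
  have hex : ∃ u : E, ‖u‖ = 1 ∧ @inner ℝ _ _ u e = 0 := ⟨u, hu, hue⟩
  apply ghDist_le_of_corr (Z := Z e)
    (fun p => ⟨Phi e p, by rw [mem_closedBall, dist_zero_right]; exact Phi_norm e he p⟩)
    (fun p => ⟨Psi e p, by rw [mem_sphere, dist_zero_right]; exact Psi_norm e he p⟩)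
  · rintro ⟨x, hx⟩
    rw [mem_closedBall, dist_zero_right] at hx
    obtain ⟨p, hp⟩ := Phi_surj e he hex x hx
    exact ⟨p, Subtype.ext hp⟩
  · rintro ⟨y, hy⟩
    rw [mem_sphere, dist_zero_right] at hy
    obtain ⟨p, hp⟩ := Psi_surj e he hex y hy
    exact ⟨p, Subtype.ext hp⟩
  · linarith [s_lt]
  · intro p q
    have h := key e he p q
    rw [← dist_eq_norm, ← dist_eq_norm] at h
    exact h

/-- Lower bound `1/2`. -/
theorem lower_all {E : Type} [NormedAddCommGroup E] [InnerProductSpace ℝ E]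
    [FiniteDimensional ℝ E] [Nonempty (sphere (0 : E) 1)] :
    1 / 2 ≤ ghDist (closedBall (0 : E) 1) (sphere (0 : E) 1) := by
  by_contra hcon
  push Not at hcon
  obtain ⟨Φ, Ψ, hΦ, hΨ, hd⟩ := ghDist_eq_hausdorffDist (closedBall (0 : E) 1) (sphere (0 : E) 1)
  rw [hd] at hcon
  have hb1 : Bornology.IsBounded (Set.range Φ) := (isCompact_range hΦ.continuous).isBounded
  have hb2 : Bornology.IsBounded (Set.range Ψ) := (isCompact_range hΨ.continuous).isBounded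
  have hfin : hausdorffEDist (Set.range Φ) (Set.range Ψ) ≠ ⊤ :=
    hausdorffEDist_ne_top_of_nonempty_of_bounded (Set.range_nonempty _) (Set.range_nonempty _)
      hb1 hb2
  let c : closedBall (0 : E) 1 := ⟨0, by simp⟩
  obtain ⟨_, ⟨y, rfl⟩, hy⟩ := exists_dist_lt_of_hausdorffDist_lt (Set.mem_range_self c) hcon hfin
  have hyn : ‖(y : E)‖ = 1 := by
    have := y.2; rwa [mem_sphere, dist_zero_right] at this
  let y' : sphere (0 : E) 1 := ⟨-(y : E), by rw [mem_sphere, dist_zero_right, norm_neg, hyn]⟩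
  obtain ⟨_, ⟨x, rfl⟩, hx⟩ := exists_dist_lt_of_hausdorffDist_lt' (Set.mem_range_self y') hcon hfin
  have hxn : ‖(x : E)‖ ≤ 1 := by
    have := x.2; rwa [mem_closedBall, dist_zero_right] at this
  have t := dist_triangle4 (Ψ y) (Φ c) (Φ x) (Ψ y')
  rw [hΨ.dist_eq, hΦ.dist_eq] at t
  have e1 : dist y y' = 2 := by
    rw [Subtype.dist_eq, dist_eq_norm]
    show ‖(y : E) - -(y : E)‖ = 2
    rw [sub_neg_eq_add, ← two_smul ℝ, norm_smul, hyn]; norm_num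
  have e2 : dist c x ≤ 1 := by
    rw [Subtype.dist_eq, dist_eq_norm]
    show ‖(0 : E) - (x : E)‖ ≤ 1
    rw [zero_sub, norm_neg]; exact hxn
  rw [e1, dist_comm (Ψ y)] at t
  have hx' : dist (Φ x) (Ψ y') < 1 / 2 := hx
  linarith

end Pool.Agent.W128.GHAll
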