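import Mathlib
import Pool.Agent.H921GH.GH
import Pool.Agent.Helper133.BULib

/-!
# Lower bound for the Gromov-Hausdorff distance between the unit ball and the unit sphere

By the Borsuk-Ulam theorem a map from the ball to the sphere of small distortion has a point `x`
such that the images of points near `x` and the negatives of the images of points near `-x`
contain `0` in their convex hull.
-/

set_option autoImplicit false

namespace Pool.Agent.W128.GHLow

open Metric GromovHausdorff H921GH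

/-- The linear algebra part. -/
theorem core {E : Type} [NormedAddCommGroup E] [InnerProductSpace ℝ E] {ι : Type} [Fintype ι]
    (N : ℝ) (hN : (Fintype.card ι : ℝ) ≤ N) (z : ι → E) (w : ι → ℝ) (T : ι → Prop)
    (hw : ∀ i, 0 < w i) (hz : ∀ i, ‖z i‖ = 1) (hsum : ∑ i, w i • z i = 0) (hone : ∑ i, w i = 1)
    (c h : ℝ) (hc0 : 0 ≤ c) (hc1 : c ≤ 1)
    (hsame : ∀ i j, i ≠ j → (T i ↔ T j) → 1 - c ≤ inner ℝ (z i) (z j))
    (hdiff : ∀ i j, T i → ¬ T j → h - 1 ≤ inner ℝ (z i) (z j)) :
    h ≤ c * (1 - 2 / N) := by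
  classical
  set a : ι → ℝ := fun i => if T i then w i else 0 with ha
  set b : ι → ℝ := fun i => if T i then 0 else w i with hb
  set A := ∑ i, a i with hA
  set B := ∑ i, b i with hB
  have hab : ∀ i, a i + b i = w i := by
    intro i; simp only [ha, hb]; split_ifs <;> ring
  have hAB : A + B = 1 := by
    rw [hA, hB, ← Finset.sum_add_distrib, ← hone]
    exact Finset.sum_congr rfl fun i _ => hab i
  have hA0 : 0 ≤ A := Finset.sum_nonneg fun i _ => by
    simp only [ha]; split_ifs; exacts [(hw i).le, le_rfl]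
  have hB0 : 0 ≤ B := Finset.sum_nonneg fun i _ => by
    simp only [hb]; split_ifs; exacts [le_rfl, (hw i).le]
  have key : ∀ i j, (a i * a j + b i * b j) * (1 - c) + (a i * b j + b i * a j) * (h - 1) +
      (if i = j then c * w i ^ 2 else 0) ≤ w i * w j * inner ℝ (z i) (z j) := by
    intro i j
    have hwij : 0 < w i * w j := mul_pos (hw i) (hw j)
    by_cases hij : i = j
    · subst hij
      rw [real_inner_self_eq_norm_sq, hz, if_pos rfl]
      by_cases hT : T i
      · simp only [ha, hb, if_pos hT]; nlinarith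
      · simp only [ha, hb, if_neg hT]; nlinarith
    · rw [if_neg hij]
      by_cases hT : T i <;> by_cases hT' : T j
      · have := hsame i j hij (by tauto)
        simp only [ha, hb, if_pos hT, if_pos hT']
        nlinarith [mul_le_mul_of_nonneg_left this hwij.le]
      · have := hdiff i j hT hT'
        simp only [ha, hb, if_pos hT, if_neg hT']
        nlinarith [mul_le_mul_of_nonneg_left this hwij.le]
      · have := hdiff j i hT' hT
        rw [real_inner_comm] at this
        simp only [ha, hb, if_neg hT, if_pos hT']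
        nlinarith [mul_le_mul_of_nonneg_left this hwij.le]
      · have := hsame i j hij (by tauto)
        simp only [ha, hb, if_neg hT, if_neg hT']
        nlinarith [mul_le_mul_of_nonneg_left this hwij.le]
  have hR : ∑ i, ∑ j, w i * w j * inner ℝ (z i) (z j) = 0 := by
    have h0 : inner ℝ (∑ i, w i • z i) (∑ i, w i • z i) = 0 := by rw [hsum, inner_zero_left]
    rw [sum_inner] at h0
    rw [← h0]
    refine Finset.sum_congr rfl fun i _ => ?_
    rw [inner_sum]
    refine Finset.sum_congr rfl fun j _ => ?_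
    rw [real_inner_smul_left, real_inner_smul_right]; ring
  have hL1 : ∀ i, ∑ j, ((a i * a j + b i * b j) * (1 - c) + (a i * b j + b i * a j) * (h - 1) +
      (if i = j then c * w i ^ 2 else 0)) =
      (a i * A + b i * B) * (1 - c) + (a i * B + b i * A) * (h - 1) + c * w i ^ 2 := by
    intro i
    rw [Finset.sum_add_distrib, Finset.sum_add_distrib, Finset.sum_ite_eq,
      if_pos (Finset.mem_univ i), ← Finset.sum_mul, ← Finset.sum_mul, Finset.sum_add_distrib,
      Finset.sum_add_distrib, ← Finset.mul_sum, ← Finset.mul_sum, ← Finset.mul_sum,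
      ← Finset.mul_sum]
  have hL : ∑ i, ∑ j, ((a i * a j + b i * b j) * (1 - c) + (a i * b j + b i * a j) * (h - 1) +
      (if i = j then c * w i ^ 2 else 0)) =
      (A ^ 2 + B ^ 2) * (1 - c) + 2 * (A * B) * (h - 1) + c * ∑ i, w i ^ 2 := by
    rw [Finset.sum_congr rfl fun i _ => hL1 i, Finset.sum_add_distrib, Finset.sum_add_distrib,
      ← Finset.sum_mul, ← Finset.sum_mul, Finset.sum_add_distrib,
      Finset.sum_add_distrib, ← Finset.sum_mul, ← Finset.sum_mul, ← Finset.sum_mul,
      ← Finset.sum_mul, ← Finset.mul_sum]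
    ring
  have hle := Finset.sum_le_sum fun i (_ : i ∈ Finset.univ) =>
    Finset.sum_le_sum fun j (_ : j ∈ Finset.univ) => key i j
  rw [hL, hR] at hle
  have hcs : (1 : ℝ) ≤ N * ∑ i, w i ^ 2 := by
    have h1 := sq_sum_le_card_mul_sum_sq (s := (Finset.univ : Finset ι)) (f := w)
    rw [hone, one_pow, Finset.card_univ] at h1
    have h2 : 0 ≤ ∑ i, w i ^ 2 := Finset.sum_nonneg fun i _ => sq_nonneg _
    exact h1.trans (mul_le_mul_of_nonneg_right hN h2)
  have hNpos : 0 < N := by
    by_contra hcon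
    push Not at hcon
    have h2 : 0 ≤ ∑ i, w i ^ 2 := Finset.sum_nonneg fun i _ => sq_nonneg _
    nlinarith
  have hw2 : 1 / N ≤ ∑ i, w i ^ 2 := by
    rw [div_le_iff₀ hNpos]; linarith
  have hP4 : 4 * (A * B) ≤ 1 := by nlinarith [sq_nonneg (A - B)]
  have hP0 : 0 ≤ A * B := mul_nonneg hA0 hB0
  have hA2 : A ^ 2 + B ^ 2 = 1 - 2 * (A * B) := by nlinarith
  rw [hA2] at hle
  have hNi : 0 < 1 / N := by positivity
  have hcN : c * (1 / N) ≤ c * ∑ i, w i ^ 2 := mul_le_mul_of_nonneg_left hw2 hc0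
  have h5 : (1 - 2 * (A * B)) * (1 - c) + c * (1 / N) ≤ 2 * (A * B) * (1 - h) := by nlinarith
  have h6 : 0 < (1 - 2 * (A * B)) * (1 - c) + c * (1 / N) := by
    rcases eq_or_lt_of_le hc0 with hc | hc
    · rw [← hc]; nlinarith
    · have : 0 < c * (1 / N) := mul_pos hc hNi
      have : 0 ≤ (1 - 2 * (A * B)) * (1 - c) := mul_nonneg (by linarith) (by linarith)
      linarith
  have hP : 0 < A * B := by
    rcases eq_or_lt_of_le hP0 with hp | hp
    · rw [← hp] at h5 h6; exfalso; linarith
    · exact hp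
  have h7 : 2 * (A * B) * (1 - c) ≤ (1 - 2 * (A * B)) * (1 - c) :=
    mul_le_mul_of_nonneg_right (by linarith) (by linarith)
  have h8 : 4 * (A * B) * (c * (1 / N)) ≤ 1 * (c * (1 / N)) :=
    mul_le_mul_of_nonneg_right hP4 (by positivity)
  have h9 : (2 * (A * B)) * (1 - c + 2 * (c * (1 / N))) ≤ (2 * (A * B)) * (1 - h) := by nlinarith
  have h10 := le_of_mul_le_mul_left h9 (by linarith)
  have e : c * (1 - 2 / N) = c - 2 * (c * (1 / N)) := by ring
  rw [e]; linarith

/-- The finite approximation of a map. -/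
noncomputable def FF {E : Type} [NormedAddCommGroup E] [NormedSpace ℝ E]
    (N : Finset E) (η : ℝ) (f : E → E) (x : E) : E :=
  ∑ n ∈ N, (max 0 (η - ‖x - n‖)) • f n

theorem FF_cont {E : Type} [NormedAddCommGroup E] [NormedSpace ℝ E]
    (N : Finset E) (η : ℝ) (f : E → E) : Continuous (FF N η f) := by
  unfold FF
  fun_prop

theorem hull_of_eq {E : Type} [NormedAddCommGroup E] [NormedSpace ℝ E]
    (N : Finset E) (η : ℝ) (f : E → E) (hN : ∀ n ∈ N, ‖n‖ ≤ 1)
    (x : E) (σ : ℝ) (hcov : ∃ n ∈ N, ‖x - n‖ < η) (hσ : 0 ≤ σ)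
    (hσx : σ = 0 ∨ ‖x‖ = 1) (h0 : FF N η f x - σ • FF N η f (-x) = 0) :
    (0 : E) ∈ convexHull ℝ
      ({z | ∃ y, ‖y‖ ≤ 1 ∧ ‖x - y‖ < η ∧ z = f y} ∪
        {z | ‖x‖ = 1 ∧ ∃ y, ‖y‖ ≤ 1 ∧ ‖x + y‖ < η ∧ z = - f y}) := by
  classical
  set S : Set E := ({z | ∃ y, ‖y‖ ≤ 1 ∧ ‖x - y‖ < η ∧ z = f y} ∪
        {z | ‖x‖ = 1 ∧ ∃ y, ‖y‖ ≤ 1 ∧ ‖x + y‖ < η ∧ z = - f y}) with hS
  let w : E × Bool → ℝ := fun p =>
    if p.2 then max 0 (η - ‖x - p.1‖) else σ * max 0 (η - ‖-x - p.1‖)
  let z : E × Bool → E := fun p => if p.2 then f p.1 else - f p.1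
  have hw0 : ∀ p, 0 ≤ w p := by
    rintro ⟨n, b⟩
    cases b
    · exact mul_nonneg hσ (le_max_left _ _)
    · exact le_max_left _ _
  let t : Finset (E × Bool) := (N ×ˢ (Finset.univ : Finset Bool)).filter (fun p => 0 < w p)
  have hzS : ∀ p ∈ t, z p ∈ S := by
    rintro ⟨n, b⟩ hp
    rw [Finset.mem_filter, Finset.mem_product] at hp
    obtain ⟨⟨hn, -⟩, hpos⟩ := hp
    cases b
    · right
      have h1 : 0 < σ * max 0 (η - ‖-x - n‖) := hpos
      have hσ' : σ ≠ 0 := by
        rintro rfl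
        rw [zero_mul] at h1; exact lt_irrefl _ h1
      have h2 : 0 < max 0 (η - ‖-x - n‖) := by
        rcases eq_or_lt_of_le (le_max_left 0 (η - ‖-x - n‖)) with h | h
        · rw [← h, mul_zero] at h1; exact absurd h1 (lt_irrefl _)
        · exact h
      have h3 : 0 < η - ‖-x - n‖ := by
        rcases lt_max_iff.1 h2 with h | h
        · exact absurd h (lt_irrefl _)
        · exact h
      refine ⟨hσx.resolve_left hσ', n, hN n hn, ?_, rfl⟩
      have e : x + n = -(-x - n) := by abel
      rw [e, norm_neg]; linarith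
    · left
      have h2 : 0 < max 0 (η - ‖x - n‖) := hpos
      have h3 : 0 < η - ‖x - n‖ := by
        rcases lt_max_iff.1 h2 with h | h
        · exact absurd h (lt_irrefl _)
        · exact h
      exact ⟨n, hN n hn, by linarith, rfl⟩
  have hws : 0 < ∑ p ∈ t, w p := by
    obtain ⟨n, hn, hxn⟩ := hcov
    have hpos : 0 < w (n, true) := lt_max_of_lt_right (by linarith)
    refine Finset.sum_pos' (fun p _ => hw0 p) ⟨(n, true), ?_, hpos⟩
    rw [Finset.mem_filter, Finset.mem_product]
    exact ⟨⟨hn, Finset.mem_univ _⟩, hpos⟩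
  have hmem := Finset.centerMass_mem_convexHull t (fun p _ => hw0 p) hws hzS
  have hsum : ∑ p ∈ t, w p • z p = 0 := by
    have e1 : ∑ p ∈ t, w p • z p = ∑ p ∈ N ×ˢ (Finset.univ : Finset Bool), w p • z p := by
      apply Finset.sum_filter_of_ne
      intro p _ hne
      rcases eq_or_lt_of_le (hw0 p) with h | h
      · exfalso; apply hne; rw [← h, zero_smul]
      · exact h
    rw [e1, Finset.sum_product]
    have e2 : ∀ n ∈ N, ∑ b : Bool, w (n, b) • z (n, b) =
        max 0 (η - ‖x - n‖) • f n - σ • (max 0 (η - ‖-x - n‖) • f n) := by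
      intro n _
      rw [Fintype.sum_bool]
      show max 0 (η - ‖x - n‖) • f n + (σ * max 0 (η - ‖-x - n‖)) • (- f n) = _
      rw [smul_neg, mul_smul, ← sub_eq_add_neg]
    rw [Finset.sum_congr rfl e2, Finset.sum_sub_distrib, ← Finset.smul_sum]
    exact h0
  have e3 : t.centerMass w z = 0 := by
    rw [Finset.centerMass, hsum, smul_zero]
  rw [e3] at hmem
  exact hmem

end Pool.Agent.W128.GHLow
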