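import Mathlib
import Pool.Agent.W128.GHLow

/-!
# Lower bound for the Gromov-Hausdorff distance between the unit ball and the unit sphere (2)
-/

set_option autoImplicit false

namespace Pool.Agent.W128.GHLow

open Metric GromovHausdorff H921GH

/-- The Borsuk-Ulam part. -/
theorem topo (m : ℕ) (f : EuclideanSpace ℝ (Fin (m + 1)) → EuclideanSpace ℝ (Fin (m + 1)))
    (η : ℝ) (hη : 0 < η) :
    ∃ x : EuclideanSpace ℝ (Fin (m + 1)), ‖x‖ ≤ 1 ∧ (0 : EuclideanSpace ℝ (Fin (m + 1))) ∈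
      convexHull ℝ
      ({z | ∃ y, ‖y‖ ≤ 1 ∧ ‖x - y‖ < η ∧ z = f y} ∪
        {z | ‖x‖ = 1 ∧ ∃ y, ‖y‖ ≤ 1 ∧ ‖x + y‖ < η ∧ z = - f y}) := by
  classical
  obtain ⟨N₀, hNsub, hNfin, hNcov⟩ :=
    (isCompact_closedBall (0 : EuclideanSpace ℝ (Fin (m + 1))) 1).finite_cover_balls hη
  let N : Finset (EuclideanSpace ℝ (Fin (m + 1))) := hNfin.toFinset
  have hN : ∀ n ∈ N, ‖n‖ ≤ 1 := by
    intro n hn
    have := hNsub (hNfin.mem_toFinset.1 hn)
    rwa [mem_closedBall, dist_zero_right] at this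
  have hcov : ∀ x : EuclideanSpace ℝ (Fin (m + 1)), ‖x‖ ≤ 1 → ∃ n ∈ N, ‖x - n‖ < η := by
    intro x hx
    have hx' : x ∈ closedBall (0 : EuclideanSpace ℝ (Fin (m + 1))) 1 := by
      rw [mem_closedBall, dist_zero_right]; exact hx
    have := hNcov hx'
    simp only [Set.mem_iUnion] at this
    obtain ⟨n, hn, hd⟩ := this
    rw [mem_ball, dist_eq_norm] at hd
    exact ⟨n, hNfin.mem_toFinset.2 hn, hd⟩
  let X : (Fin (m + 1 + 1) → ℝ) → EuclideanSpace ℝ (Fin (m + 1)) :=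
    fun v => WithLp.toLp 2 (fun i => v i.succ)
  have hX : Continuous X := by
    apply (PiLp.continuous_toLp 2 _).comp
    exact continuous_pi fun i => continuous_apply _
  have hXneg : ∀ v, X (-v) = - X v := by
    intro v; ext i; rfl
  let c : ℝ := 1 / ((m : ℝ) + 2)
  have hc : 0 < c := by positivity
  let M : (Fin (m + 1 + 1) → ℝ) → ℝ := fun v => max (max ‖X v‖ |v 0|) c
  have hM : Continuous M := by
    apply Continuous.max _ continuous_const
    exact Continuous.max hX.norm (continuous_apply 0).abs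
  have hMpos : ∀ v, 0 < M v := fun v => lt_max_of_lt_right hc
  have hMneg : ∀ v, M (-v) = M v := by
    intro v
    show max (max ‖X (-v)‖ |(-v) 0|) c = max (max ‖X v‖ |v 0|) c
    rw [hXneg, norm_neg, Pi.neg_apply, abs_neg]
  let ρ : (Fin (m + 1 + 1) → ℝ) → EuclideanSpace ℝ (Fin (m + 1)) := fun v => (M v)⁻¹ • X v
  let τ : (Fin (m + 1 + 1) → ℝ) → ℝ := fun v => v 0 / M v
  have hρ : Continuous ρ := (hM.inv₀ fun v => (hMpos v).ne').smul hX
  have hτ : Continuous τ := (continuous_apply 0).div hM fun v => (hMpos v).ne'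
  have hρneg : ∀ v, ρ (-v) = - ρ v := by
    intro v
    show (M (-v))⁻¹ • X (-v) = - ((M v)⁻¹ • X v)
    rw [hMneg, hXneg, smul_neg]
  have hτneg : ∀ v, τ (-v) = - τ v := by
    intro v
    show (-v) 0 / M (-v) = -(v 0 / M v)
    rw [hMneg, Pi.neg_apply, neg_div]
  let G : (Fin (m + 1 + 1) → ℝ) → EuclideanSpace ℝ (Fin (m + 1)) := fun v =>
    (min 1 (1 + τ v)) • FF N η f (ρ v) - (min 1 (1 - τ v)) • FF N η f (-(ρ v))
  have hG : Continuous G := by
    apply Continuous.sub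
    · exact (continuous_const.min (continuous_const.add hτ)).smul ((FF_cont N η f).comp hρ)
    · exact (continuous_const.min (continuous_const.sub hτ)).smul ((FF_cont N η f).comp hρ.neg)
  have hGneg : ∀ v, G (-v) = - G v := by
    intro v
    show (min 1 (1 + τ (-v))) • FF N η f (ρ (-v)) - (min 1 (1 - τ (-v))) • FF N η f (-(ρ (-v))) =
      -((min 1 (1 + τ v)) • FF N η f (ρ v) - (min 1 (1 - τ v)) • FF N η f (-(ρ v)))
    rw [hτneg, hρneg, neg_neg, neg_sub, ← sub_eq_add_neg, sub_neg_eq_add]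
  obtain ⟨v, hvK, hv0⟩ := Pool.Agent.Helper133.BU.borsuk_ulam (m + 1)
    (fun v => WithLp.ofLp (G v)) ((PiLp.continuous_ofLp 2 _).comp hG) (by
      intro v
      show WithLp.ofLp (G (-v)) = - WithLp.ofLp (G v)
      rw [hGneg]; rfl)
  have hG0 : G v = 0 := by
    ext i
    have := congrFun hv0 i
    exact this
  have hvK' : ∑ i, |v i| = 1 := hvK
  -- the maximum is attained by the first part
  have hbig : c ≤ max ‖X v‖ |v 0| := by
    by_contra hcon
    push Not at hcon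
    obtain ⟨h1, h2⟩ := max_lt_iff.1 hcon
    have h3 : ∀ i, |v i| < c := by
      intro i
      refine Fin.cases h2 (fun j => ?_) i
      have h4 := PiLp.norm_apply_le (X v) j
      have h5 : ‖(X v) j‖ = |v j.succ| := Real.norm_eq_abs _
      rw [← h5]
      exact h4.trans_lt h1
    have h6 : ∑ i, |v i| < ∑ _i : Fin (m + 1 + 1), c :=
      Finset.sum_lt_sum_of_nonempty Finset.univ_nonempty fun i _ => h3 i
    rw [hvK', Finset.sum_const, Finset.card_univ, Fintype.card_fin, nsmul_eq_mul] at h6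
    have h7 : ((m + 1 + 1 : ℕ) : ℝ) * c = 1 := by
      show ((m + 1 + 1 : ℕ) : ℝ) * (1 / ((m : ℝ) + 2)) = 1
      push_cast
      have : (m : ℝ) + 2 ≠ 0 := by positivity
      field_simp
      ring
    rw [h7] at h6
    exact lt_irrefl _ h6
  have hMv : M v = max ‖X v‖ |v 0| := max_eq_left hbig
  have hMp := hMpos v
  have hρn : ‖ρ v‖ = ‖X v‖ / M v := by
    show ‖(M v)⁻¹ • X v‖ = _
    rw [norm_smul, norm_inv, Real.norm_eq_abs, abs_of_pos hMp, inv_mul_eq_div]
  have hρ1 : ‖ρ v‖ ≤ 1 := by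
    rw [hρn, div_le_one hMp, hMv]; exact le_max_left _ _
  have hτ1 : |τ v| ≤ 1 := by
    show |v 0 / M v| ≤ 1
    rw [abs_div, abs_of_pos hMp, div_le_one hMp, hMv]; exact le_max_right _ _
  have hor : |τ v| = 1 ∨ ‖ρ v‖ = 1 := by
    rcases le_total ‖X v‖ |v 0| with h | h
    · left
      have h1 : M v = |v 0| := by rw [hMv]; exact max_eq_right h
      show |v 0 / M v| = 1
      rw [abs_div, abs_of_pos hMp, ← h1, div_self hMp.ne']
    · right
      have h1 : M v = ‖X v‖ := by rw [hMv]; exact max_eq_left h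
      rw [hρn, ← h1, div_self hMp.ne']
  obtain ⟨ht1, ht2⟩ := abs_le.1 hτ1
  have hG0' : (min 1 (1 + τ v)) • FF N η f (ρ v) - (min 1 (1 - τ v)) • FF N η f (-(ρ v)) = 0 := hG0
  rcases le_total 0 (τ v) with h | h
  · refine ⟨ρ v, hρ1, hull_of_eq N η f hN (ρ v) (1 - τ v) (hcov _ hρ1) (by linarith) ?_ ?_⟩
    · rcases hor with h1 | h1
      · left; rw [abs_of_nonneg h] at h1; linarith
      · right; exact h1
    · rw [min_eq_left (by linarith), min_eq_right (by linarith), one_smul] at hG0'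
      exact hG0'
  · refine ⟨-ρ v, by rw [norm_neg]; exact hρ1,
      hull_of_eq N η f hN (-ρ v) (1 + τ v) (hcov _ (by rw [norm_neg]; exact hρ1))
        (by linarith) ?_ ?_⟩
    · rcases hor with h1 | h1
      · left; rw [abs_of_nonpos h] at h1; linarith
      · right; rw [norm_neg]; exact h1
    · rw [min_eq_right (by linarith), min_eq_left (by linarith), one_smul] at hG0'
      rw [neg_neg, ← neg_sub, hG0', neg_zero]

/-- **Lower bound.** -/
theorem lower (m : ℕ) (hm : 1 ≤ m) [Nonempty (sphere (0 : EuclideanSpace ℝ (Fin (m + 1))) 1)] :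
    1 / (1 + √((m : ℝ) / (m + 2))) ≤
      ghDist (closedBall (0 : EuclideanSpace ℝ (Fin (m + 1))) 1)
        (sphere (0 : EuclideanSpace ℝ (Fin (m + 1))) 1) := by
  classical
  by_contra hcon
  push Not at hcon
  have hm' : (1 : ℝ) ≤ m := by exact_mod_cast hm
  set q : ℝ := √((m : ℝ) / (m + 2)) with hq
  have hq2 : q ^ 2 = (m : ℝ) / (m + 2) := Real.sq_sqrt (by positivity)
  have hq0 : 0 ≤ q := Real.sqrt_nonneg _
  have hqh : 1 / 2 ≤ q := by
    apply abs_le_of_sq_le_sq' _ hq0 |>.2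
    rw [hq2, le_div_iff₀ (by positivity)]
    nlinarith
  set L : ℝ := 1 / (1 + q) with hL
  have hLq : L * (1 + q) = 1 := by rw [hL]; field_simp
  have hLpos : 0 < L := by rw [hL]; positivity
  have hL23 : L ≤ 2 / 3 := by nlinarith
  obtain ⟨r', hr1', hr2'⟩ := exists_between hcon
  obtain ⟨r, hr1, hr2⟩ := exists_between hr1'
  obtain ⟨f₀, hf₀⟩ := exists_map_of_ghDist_lt hr1
  have hr0 : 0 ≤ r := by
    have := hf₀ ⟨0, by simp⟩ ⟨0, by simp⟩
    rw [dist_self, dist_self, sub_zero, abs_zero] at this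
    linarith
  set η : ℝ := r' - r with hη
  have hη0 : 0 < η := by rw [hη]; linarith
  have mem_cb : ∀ x : EuclideanSpace ℝ (Fin (m + 1)), ‖x‖ ≤ 1 →
      x ∈ closedBall (0 : EuclideanSpace ℝ (Fin (m + 1))) 1 := by
    intro x hx; rw [mem_closedBall, dist_zero_right]; exact hx
  obtain ⟨f, hval⟩ : ∃ f : EuclideanSpace ℝ (Fin (m + 1)) → EuclideanSpace ℝ (Fin (m + 1)),
      ∀ x (h : ‖x‖ ≤ 1), f x = f₀ ⟨x, mem_cb x h⟩ :=
    ⟨fun x => if h : ‖x‖ ≤ 1 then (f₀ ⟨x, mem_cb x h⟩ : EuclideanSpace ℝ (Fin (m + 1))) else 0,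
      fun x h => dif_pos h⟩
  have hf1 : ∀ x, ‖x‖ ≤ 1 → ‖f x‖ = 1 := by
    intro x hx
    rw [hval x hx]
    have h2 := (f₀ ⟨x, mem_cb x hx⟩).2
    rwa [mem_sphere, dist_zero_right] at h2
  have hfd : ∀ x y, ‖x‖ ≤ 1 → ‖y‖ ≤ 1 → |‖x - y‖ - ‖f x - f y‖| ≤ 2 * r := by
    intro x y hx hy
    rw [hval x hx, hval y hy]
    have h2 := hf₀ ⟨x, mem_cb x hx⟩ ⟨y, mem_cb y hy⟩
    rw [Subtype.dist_eq, Subtype.dist_eq, dist_eq_norm, dist_eq_norm] at h2
    exact h2
  obtain ⟨x, hx, hmem⟩ := topo m f η hη0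
  obtain ⟨ι, hι, z, w, hzr, hai, hw, hone, hsum⟩ := eq_pos_convex_span_of_mem_convexHull hmem
  have hcard : (Fintype.card ι : ℝ) ≤ (m : ℝ) + 2 := by
    have h1 := hai.card_le_finrank_succ
    have h2 : Module.finrank ℝ (vectorSpan ℝ (Set.range z)) ≤ m + 1 := by
      have := Submodule.finrank_le (vectorSpan ℝ (Set.range z))
      rwa [finrank_euclideanSpace_fin] at this
    have h3 : Fintype.card ι ≤ m + 2 := by omega
    exact_mod_cast h3
  let T : ι → Prop := fun i => ∃ y, ‖y‖ ≤ 1 ∧ ‖x - y‖ < η ∧ z i = f y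
  have hTn : ∀ i, ¬ T i → ‖x‖ = 1 ∧ ∃ y, ‖y‖ ≤ 1 ∧ ‖x + y‖ < η ∧ z i = - f y := by
    intro i hi
    rcases hzr (Set.mem_range_self i) with h | h
    · exact absurd h hi
    · exact h
  have hz1 : ∀ i, ‖z i‖ = 1 := by
    intro i
    by_cases hi : T i
    · obtain ⟨y, hy, -, e⟩ := hi
      rw [e]; exact hf1 y hy
    · obtain ⟨-, y, hy, -, e⟩ := hTn i hi
      rw [e, norm_neg]; exact hf1 y hy
  have hinner : ∀ u v : EuclideanSpace ℝ (Fin (m + 1)), ‖u‖ = 1 → ‖v‖ = 1 →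
      inner ℝ u v = 1 - ‖u - v‖ ^ 2 / 2 := by
    intro u v hu hv
    have := norm_sub_sq_real u v
    rw [hu, hv] at this
    linarith
  set D : ℝ := 2 * r' with hD
  have hD0 : 0 ≤ D := by rw [hD]; linarith
  have hDL : D < 2 * L := by rw [hD]; linarith
  have hclose : ∀ y y' : EuclideanSpace ℝ (Fin (m + 1)), ‖y‖ ≤ 1 → ‖y'‖ ≤ 1 →
      ‖y - y'‖ ≤ 2 * η → 1 - D ^ 2 / 2 ≤ inner ℝ (f y) (f y') := by
    intro y y' hy hy' hyy
    rw [hinner _ _ (hf1 y hy) (hf1 y' hy')]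
    have h1 := (abs_le.1 (hfd y y' hy hy')).1
    have h2 : ‖f y - f y'‖ ≤ D := by rw [hD]; linarith
    have h3 := pow_le_pow_left₀ (norm_nonneg _) h2 2
    linarith
  have hfin := core (N := (m : ℝ) + 2) hcard z w T hw hz1 hsum hone (D ^ 2 / 2)
    ((2 - D) ^ 2 / 2) (by positivity) (by nlinarith) ?_ ?_
  · have hmm : (1 : ℝ) - 2 / ((m : ℝ) + 2) = q ^ 2 := by
      rw [hq2]; field_simp; ring
    rw [hmm] at hfin
    have h1 : (2 - D) ^ 2 ≤ (D * q) ^ 2 := by nlinarith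
    have h2 : 2 - D ≤ D * q := abs_le_of_sq_le_sq' h1 (mul_nonneg hD0 hq0) |>.2
    have h3 : D * (1 + q) < 2 * L * (1 + q) := mul_lt_mul_of_pos_right hDL (by linarith)
    have h4 : 2 * L * (1 + q) = 2 := by linarith
    linarith
  · intro i j _ hij
    by_cases hi : T i
    · have hj := hij.1 hi
      obtain ⟨y, hy, hxy, e⟩ := hi
      obtain ⟨y', hy', hxy', e'⟩ := hj
      rw [e, e']
      apply hclose y y' hy hy'
      have e2 : y - y' = (x - y') - (x - y) := by abel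
      rw [e2]
      have := norm_sub_le (x - y') (x - y)
      linarith
    · have hj : ¬ T j := fun h => hi (hij.2 h)
      obtain ⟨-, y, hy, hxy, e⟩ := hTn i hi
      obtain ⟨-, y', hy', hxy', e'⟩ := hTn j hj
      rw [e, e', inner_neg_neg]
      apply hclose y y' hy hy'
      have e2 : y - y' = (x + y) - (x + y') := by abel
      rw [e2]
      have := norm_sub_le (x + y) (x + y')
      linarith
  · intro i j hi hj
    obtain ⟨y, hy, hxy, e⟩ := hi
    obtain ⟨hx1, y', hy', hxy', e'⟩ := hTn j hj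
    rw [e, e', inner_neg_right, hinner _ _ (hf1 y hy) (hf1 y' hy')]
    have h1 := (abs_le.1 (hfd y y' hy hy')).2
    have h2 : 2 - 2 * η ≤ ‖y - y'‖ := by
      have e2 : (2 : ℝ) • x = (y - y') + ((x - y) + (x + y')) := by
        rw [two_smul]; abel
      have e3 : ‖(2 : ℝ) • x‖ = 2 := by rw [norm_smul, hx1]; norm_num
      have h5 := norm_add_le (y - y') ((x - y) + (x + y'))
      have h6 := norm_add_le (x - y) (x + y')
      rw [← e2, e3] at h5
      linarith
    have h3 : 2 - D ≤ ‖f y - f y'‖ := by rw [hD]; linarith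
    have h4 : (0 : ℝ) ≤ 2 - D := by linarith
    have h5 := pow_le_pow_left₀ h4 h3 2
    linarith

end Pool.Agent.W128.GHLow
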