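import Mathlib
import Pool.Agent.W128.GHLow2

/-!
# Lower bound for the Gromov-Hausdorff distance between the unit ball and the unit sphere (3):
the integral form
-/

set_option autoImplicit false
set_option maxHeartbeats 1000000

namespace Pool.Agent.W128.GHLow

open Metric GromovHausdorff H921GH

/-- The linear algebra part with the numbers of points of the two kinds. -/
theorem core' {E : Type} [NormedAddCommGroup E] [InnerProductSpace ℝ E] {ι : Type} [Fintype ι]
    (z : ι → E) (w : ι → ℝ) (T : ι → Prop)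
    (hw : ∀ i, 0 < w i) (hz : ∀ i, ‖z i‖ = 1) (hsum : ∑ i, w i • z i = 0) (hone : ∑ i, w i = 1)
    (c h : ℝ) (hc0 : 0 ≤ c) (hc1 : c ≤ 1)
    (hsame : ∀ i j, i ≠ j → (T i ↔ T j) → 1 - c ≤ inner ℝ (z i) (z j))
    (hdiff : ∀ i j, T i → ¬ T j → h - 1 ≤ inner ℝ (z i) (z j)) :
    ∃ k l : ℕ, 1 ≤ k ∧ 1 ≤ l ∧ k + l ≤ Fintype.card ι ∧ 0 < 1 - h ∧
      (1 - c + c / k) * (1 - c + c / l) ≤ (1 - h) ^ 2 := by
  classical
  set a : ι → ℝ := fun i => if T i then w i else 0 with ha
  set b : ι → ℝ := fun i => if T i then 0 else w i with hb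
  set A := ∑ i, a i with hA
  set B := ∑ i, b i with hB
  have hab : ∀ i, a i + b i = w i := by
    intro i; simp only [ha, hb]; split_ifs <;> ring
  have hAB : A + B = 1 := by
    rw [hA, hB, ← Finset.sum_add_distrib, ← hone]
    exact Finset.sum_congr rfl fun i _ => hab i
  have hA0 : 0 ≤ A := Finset.sum_nonneg fun i _ => by
    simp only [ha]; split_ifs; exacts [(hw i).le, le_rfl]
  have hB0 : 0 ≤ B := Finset.sum_nonneg fun i _ => by
    simp only [hb]; split_ifs; exacts [le_rfl, (hw i).le]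
  have key : ∀ i j, (a i * a j + b i * b j) * (1 - c) + (a i * b j + b i * a j) * (h - 1) +
      (if i = j then c * w i ^ 2 else 0) ≤ w i * w j * inner ℝ (z i) (z j) := by
    intro i j
    have hwij : 0 < w i * w j := mul_pos (hw i) (hw j)
    by_cases hij : i = j
    · subst hij
      rw [real_inner_self_eq_norm_sq, hz, if_pos rfl]
      by_cases hT : T i
      · simp only [ha, hb, if_pos hT]; nlinarith
      · simp only [ha, hb, if_neg hT]; nlinarith
    · rw [if_neg hij]
      by_cases hT : T i <;> by_cases hT' : T j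
      · have := hsame i j hij (by tauto)
        simp only [ha, hb, if_pos hT, if_pos hT']
        nlinarith [mul_le_mul_of_nonneg_left this hwij.le]
      · have := hdiff i j hT hT'
        simp only [ha, hb, if_pos hT, if_neg hT']
        nlinarith [mul_le_mul_of_nonneg_left this hwij.le]
      · have := hdiff j i hT' hT
        rw [real_inner_comm] at this
        simp only [ha, hb, if_neg hT, if_pos hT']
        nlinarith [mul_le_mul_of_nonneg_left this hwij.le]
      · have := hsame i j hij (by tauto)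
        simp only [ha, hb, if_neg hT, if_neg hT']
        nlinarith [mul_le_mul_of_nonneg_left this hwij.le]
  have hR : ∑ i, ∑ j, w i * w j * inner ℝ (z i) (z j) = 0 := by
    have h0 : inner ℝ (∑ i, w i • z i) (∑ i, w i • z i) = 0 := by rw [hsum, inner_zero_left]
    rw [sum_inner] at h0
    rw [← h0]
    refine Finset.sum_congr rfl fun i _ => ?_
    rw [inner_sum]
    refine Finset.sum_congr rfl fun j _ => ?_
    rw [real_inner_smul_left, real_inner_smul_right]; ring
  have hL1 : ∀ i, ∑ j, ((a i * a j + b i * b j) * (1 - c) + (a i * b j + b i * a j) * (h - 1) +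
      (if i = j then c * w i ^ 2 else 0)) =
      (a i * A + b i * B) * (1 - c) + (a i * B + b i * A) * (h - 1) + c * w i ^ 2 := by
    intro i
    rw [Finset.sum_add_distrib, Finset.sum_add_distrib, Finset.sum_ite_eq,
      if_pos (Finset.mem_univ i), ← Finset.sum_mul, ← Finset.sum_mul, Finset.sum_add_distrib,
      Finset.sum_add_distrib, ← Finset.mul_sum, ← Finset.mul_sum, ← Finset.mul_sum,
      ← Finset.mul_sum]
  have hL : ∑ i, ∑ j, ((a i * a j + b i * b j) * (1 - c) + (a i * b j + b i * a j) * (h - 1) +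
      (if i = j then c * w i ^ 2 else 0)) =
      (A ^ 2 + B ^ 2) * (1 - c) + 2 * (A * B) * (h - 1) + c * ∑ i, w i ^ 2 := by
    rw [Finset.sum_congr rfl fun i _ => hL1 i, Finset.sum_add_distrib, Finset.sum_add_distrib,
      ← Finset.sum_mul, ← Finset.sum_mul, Finset.sum_add_distrib,
      Finset.sum_add_distrib, ← Finset.sum_mul, ← Finset.sum_mul, ← Finset.sum_mul,
      ← Finset.sum_mul, ← Finset.mul_sum]
    ring
  have hle := Finset.sum_le_sum fun i (_ : i ∈ Finset.univ) =>
    Finset.sum_le_sum fun j (_ : j ∈ Finset.univ) => key i j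
  rw [hL, hR] at hle
  set S : Finset ι := Finset.univ.filter T with hS
  set S' : Finset ι := Finset.univ.filter (fun i => ¬ T i) with hS'
  have hAS : A = ∑ i ∈ S, w i := by rw [hA, hS, Finset.sum_filter]
  have hBS : B = ∑ i ∈ S', w i := by
    rw [hB, hS', Finset.sum_filter]
    refine Finset.sum_congr rfl fun i _ => ?_
    simp only [hb]
    by_cases hT : T i
    · rw [if_pos hT, if_neg (not_not.2 hT)]
    · rw [if_neg hT, if_pos hT]
  have hsplit : ∑ i, w i ^ 2 = ∑ i ∈ S, w i ^ 2 + ∑ i ∈ S', w i ^ 2 :=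
    (Finset.sum_filter_add_sum_filter_not Finset.univ T fun i => w i ^ 2).symm
  have hcards : S.card + S'.card ≤ Fintype.card ι := by
    have hdis : Disjoint S S' := Finset.disjoint_filter_filter_not _ _ _
    rw [← Finset.card_union_of_disjoint hdis]
    exact Finset.card_le_univ _
  have hwS : 0 ≤ ∑ i ∈ S, w i ^ 2 := Finset.sum_nonneg fun i _ => sq_nonneg _
  have hwS' : 0 ≤ ∑ i ∈ S', w i ^ 2 := Finset.sum_nonneg fun i _ => sq_nonneg _
  have hw2 : 0 < ∑ i, w i ^ 2 := by
    have hne : (Finset.univ : Finset ι).Nonempty := by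
      by_contra hcon
      rw [Finset.not_nonempty_iff_eq_empty] at hcon
      rw [hcon, Finset.sum_empty] at hone
      norm_num at hone
    exact Finset.sum_pos (fun i _ => pow_pos (hw i) 2) hne
  have hP4 : 4 * (A * B) ≤ 1 := by nlinarith [sq_nonneg (A - B)]
  have hP0 : 0 ≤ A * B := mul_nonneg hA0 hB0
  have hA2 : A ^ 2 + B ^ 2 = 1 - 2 * (A * B) := by nlinarith
  have hP : 0 < A * B := by
    rcases eq_or_lt_of_le hP0 with hp | hp
    · exfalso
      rw [hA2, ← hp] at hle
      rcases eq_or_lt_of_le hc0 with hc | hc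
      · rw [← hc] at hle; linarith
      · have := mul_pos hc hw2
        nlinarith
    · exact hp
  have hAp : 0 < A := by
    rcases eq_or_lt_of_le hA0 with hp | hp
    · rw [← hp, zero_mul] at hP; exact absurd hP (lt_irrefl _)
    · exact hp
  have hBp : 0 < B := by
    rcases eq_or_lt_of_le hB0 with hp | hp
    · rw [← hp, mul_zero] at hP; exact absurd hP (lt_irrefl _)
    · exact hp
  have hk : 1 ≤ S.card := by
    rw [Nat.one_le_iff_ne_zero, Ne, Finset.card_eq_zero]
    intro h0
    rw [hAS, h0, Finset.sum_empty] at hAp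
    exact lt_irrefl _ hAp
  have hl : 1 ≤ S'.card := by
    rw [Nat.one_le_iff_ne_zero, Ne, Finset.card_eq_zero]
    intro h0
    rw [hBS, h0, Finset.sum_empty] at hBp
    exact lt_irrefl _ hBp
  have hkR : (0 : ℝ) < S.card := by exact_mod_cast hk
  have hlR : (0 : ℝ) < S'.card := by exact_mod_cast hl
  have q1 : A ^ 2 / S.card ≤ ∑ i ∈ S, w i ^ 2 := by
    rw [div_le_iff₀ hkR, mul_comm, hAS]
    exact sq_sum_le_card_mul_sum_sq
  have q2 : B ^ 2 / S'.card ≤ ∑ i ∈ S', w i ^ 2 := by
    rw [div_le_iff₀ hlR, mul_comm, hBS]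
    exact sq_sum_le_card_mul_sum_sq
  set α : ℝ := 1 - c + c / S.card with hα
  set β : ℝ := 1 - c + c / S'.card with hβ
  have hck : 0 ≤ c / S.card := div_nonneg hc0 hkR.le
  have hcl : 0 ≤ c / S'.card := div_nonneg hc0 hlR.le
  have hα0 : 0 < α := by
    rcases eq_or_lt_of_le hc0 with hc | hc
    · rw [hα, ← hc]; norm_num
    · have : 0 < c / S.card := div_pos hc hkR
      rw [hα]; linarith
  have hβ0 : 0 < β := by
    rcases eq_or_lt_of_le hc0 with hc | hc
    · rw [hβ, ← hc]; norm_num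
    · have : 0 < c / S'.card := div_pos hc hlR
      rw [hβ]; linarith
  have r1 := mul_le_mul_of_nonneg_left q1 hc0
  have r2 := mul_le_mul_of_nonneg_left q2 hc0
  have e1 : c * (A ^ 2 / S.card) = c / S.card * A ^ 2 := by ring
  have e2 : c * (B ^ 2 / S'.card) = c / S'.card * B ^ 2 := by ring
  rw [e1] at r1
  rw [e2] at r2
  have hmain : α * A ^ 2 + β * B ^ 2 ≤ 2 * (A * B) * (1 - h) := by
    rw [hα, hβ]
    rw [hsplit] at hle
    nlinarith
  have hleft : 0 < α * A ^ 2 + β * B ^ 2 :=
    add_pos (mul_pos hα0 (pow_pos hAp 2)) (mul_pos hβ0 (pow_pos hBp 2))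
  have hg : 0 < 1 - h := by
    by_contra hcon
    push Not at hcon
    have : 2 * (A * B) * (1 - h) ≤ 0 := mul_nonpos_of_nonneg_of_nonpos (by linarith) hcon
    linarith
  refine ⟨S.card, S'.card, hk, hl, hcards, hg, ?_⟩
  have hsq : (α * A ^ 2 + β * B ^ 2) ^ 2 ≤ (2 * (A * B) * (1 - h)) ^ 2 :=
    pow_le_pow_left₀ hleft.le hmain 2
  have hamgm : 4 * (A * B) ^ 2 * (α * β) ≤ (α * A ^ 2 + β * B ^ 2) ^ 2 := by
    nlinarith [sq_nonneg (α * A ^ 2 - β * B ^ 2)]
  have hfin : 4 * (A * B) ^ 2 * (α * β) ≤ 4 * (A * B) ^ 2 * (1 - h) ^ 2 := by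
    refine hamgm.trans (hsq.trans (le_of_eq ?_))
    ring
  exact le_of_mul_le_mul_left hfin (mul_pos (by norm_num) (pow_pos hP 2))

/-- Among all `k + l ≤ N` the balanced pair is the worst. -/
theorem balanced (N k l : ℕ) (hk : 1 ≤ k) (hl : 1 ≤ l) (hN : k + l ≤ N) (c : ℝ) (hc0 : 0 ≤ c)
    (hc1 : c ≤ 1) :
    (1 - c + c / (N / 2 : ℕ)) * (1 - c + c / (N - N / 2 : ℕ)) ≤
      (1 - c + c / k) * (1 - c + c / l) := by
  obtain ⟨l', hl'⟩ : ∃ l', k + l' = N := ⟨N - k, by omega⟩
  have hll : l ≤ l' := by omega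
  have hl'1 : 1 ≤ l' := by omega
  obtain ⟨p, hp⟩ : ∃ p, p = N / 2 := ⟨_, rfl⟩
  obtain ⟨r, hr⟩ : ∃ r, r = N - N / 2 := ⟨_, rfl⟩
  rw [← hr, ← hp]
  have hp1 : 1 ≤ p := by omega
  have hr1 : 1 ≤ r := by omega
  have hpr : p + r = k + l' := by omega
  have hprod : k * l' ≤ p * r := by
    have hpr2 : r = p ∨ r = p + 1 := by omega
    zify at hpr ⊢
    have hl'' : (l' : ℤ) = p + r - k := by linarith
    rw [hl'']
    rcases hpr2 with h | h
    · rw [h]; nlinarith [sq_nonneg ((k : ℤ) - p)]
    · rw [h]; push_cast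
      have : 0 ≤ ((k : ℤ) - p) * ((k : ℤ) - p - 1) := by
        rcases le_or_gt ((k : ℤ) - p) 0 with h1 | h1
        · exact mul_nonneg_of_nonpos_of_nonpos h1 (by linarith)
        · exact mul_nonneg h1.le (by linarith)
      nlinarith
  have hkR : (0 : ℝ) < k := by exact_mod_cast hk
  have hlR : (0 : ℝ) < l := by exact_mod_cast hl
  have hl'R : (0 : ℝ) < l' := by exact_mod_cast hl'1
  have hpR : (0 : ℝ) < p := by exact_mod_cast hp1
  have hrR : (0 : ℝ) < r := by exact_mod_cast hr1
  have hprR : (p : ℝ) + r = k + l' := by exact_mod_cast hpr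
  have hprodR : (k : ℝ) * l' ≤ p * r := by exact_mod_cast hprod
  have step1 : (1 - c + c / k) * (1 - c + c / l') ≤ (1 - c + c / k) * (1 - c + c / l) := by
    apply mul_le_mul_of_nonneg_left
    · have : c / l' ≤ c / l := by
        apply div_le_div_of_nonneg_left hc0 hlR
        exact_mod_cast hll
      linarith
    · have : 0 ≤ c / k := div_nonneg hc0 hkR.le
      linarith
  refine le_trans ?_ step1
  have x1 : (1 - c + c / k) * (1 - c + c / l') =
      (1 - c) ^ 2 + ((1 - c) * c * (k + l') + c ^ 2) * (1 / (k * l')) := by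
    field_simp
    ring
  have x2 : (1 - c + c / p) * (1 - c + c / r) =
      (1 - c) ^ 2 + ((1 - c) * c * (p + r) + c ^ 2) * (1 / (p * r)) := by
    field_simp
    ring
  rw [x1, x2, hprR]
  have hx : (1 : ℝ) / (p * r) ≤ 1 / (k * l') :=
    one_div_le_one_div_of_le (mul_pos hkR hl'R) hprodR
  have hco : 0 ≤ (1 - c) * c * ((k : ℝ) + l') + c ^ 2 := by
    have : 0 ≤ (1 - c) * c := mul_nonneg (by linarith) hc0
    positivity
  have := mul_le_mul_of_nonneg_left hx hco
  linarith

end Pool.Agent.W128.GHLow
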