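import Mathlib
import Pool.Agent.W128.GHLow3

/-!
# Lower bound for the Gromov-Hausdorff distance between the unit ball and the unit sphere (4)
-/

set_option autoImplicit false
set_option maxHeartbeats 1000000

namespace Pool.Agent.W128.GHLow

open Metric GromovHausdorff H921GH

theorem step (m : ℕ) [Nonempty (sphere (0 : EuclideanSpace ℝ (Fin (m + 1))) 1)] (r' : ℝ)
    (hr1' : ghDist (closedBall (0 : EuclideanSpace ℝ (Fin (m + 1))) 1)
        (sphere (0 : EuclideanSpace ℝ (Fin (m + 1))) 1) < r') (hr2' : 2 * r' ^ 2 ≤ 1) :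
    ∃ k l : ℕ, 1 ≤ k ∧ 1 ≤ l ∧ k + l ≤ m + 2 ∧ 0 < 1 - 2 * (1 - r') ^ 2 ∧
      (1 - 2 * r' ^ 2 + 2 * r' ^ 2 / k) * (1 - 2 * r' ^ 2 + 2 * r' ^ 2 / l) ≤
        (1 - 2 * (1 - r') ^ 2) ^ 2 := by
  classical
  obtain ⟨r, hr1, hr2⟩ := exists_between hr1'
  obtain ⟨f₀, hf₀⟩ := exists_map_of_ghDist_lt hr1
  have hr0 : 0 ≤ r := by
    have := hf₀ ⟨0, by simp⟩ ⟨0, by simp⟩
    rw [dist_self, dist_self, sub_zero, abs_zero] at this
    linarith
  set η : ℝ := r' - r with hη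
  have hη0 : 0 < η := by rw [hη]; linarith
  have mem_cb : ∀ x : EuclideanSpace ℝ (Fin (m + 1)), ‖x‖ ≤ 1 →
      x ∈ closedBall (0 : EuclideanSpace ℝ (Fin (m + 1))) 1 := by
    intro x hx; rw [mem_closedBall, dist_zero_right]; exact hx
  obtain ⟨f, hval⟩ : ∃ f : EuclideanSpace ℝ (Fin (m + 1)) → EuclideanSpace ℝ (Fin (m + 1)),
      ∀ x (h : ‖x‖ ≤ 1), f x = f₀ ⟨x, mem_cb x h⟩ :=
    ⟨fun x => if h : ‖x‖ ≤ 1 then (f₀ ⟨x, mem_cb x h⟩ : EuclideanSpace ℝ (Fin (m + 1))) else 0,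
      fun x h => dif_pos h⟩
  have hf1 : ∀ x, ‖x‖ ≤ 1 → ‖f x‖ = 1 := by
    intro x hx
    rw [hval x hx]
    have h2 := (f₀ ⟨x, mem_cb x hx⟩).2
    rwa [mem_sphere, dist_zero_right] at h2
  have hfd : ∀ x y, ‖x‖ ≤ 1 → ‖y‖ ≤ 1 → |‖x - y‖ - ‖f x - f y‖| ≤ 2 * r := by
    intro x y hx hy
    rw [hval x hx, hval y hy]
    have h2 := hf₀ ⟨x, mem_cb x hx⟩ ⟨y, mem_cb y hy⟩
    rw [Subtype.dist_eq, Subtype.dist_eq, dist_eq_norm, dist_eq_norm] at h2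
    exact h2
  obtain ⟨x, hx, hmem⟩ := topo m f η hη0
  obtain ⟨ι, hι, z, w, hzr, hai, hw, hone, hsum⟩ := eq_pos_convex_span_of_mem_convexHull hmem
  have hcard : Fintype.card ι ≤ m + 2 := by
    have h1 := hai.card_le_finrank_succ
    have h2 : Module.finrank ℝ (vectorSpan ℝ (Set.range z)) ≤ m + 1 := by
      have := Submodule.finrank_le (vectorSpan ℝ (Set.range z))
      rwa [finrank_euclideanSpace_fin] at this
    omega
  let T : ι → Prop := fun i => ∃ y, ‖y‖ ≤ 1 ∧ ‖x - y‖ < η ∧ z i = f y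
  have hTn : ∀ i, ¬ T i → ‖x‖ = 1 ∧ ∃ y, ‖y‖ ≤ 1 ∧ ‖x + y‖ < η ∧ z i = - f y := by
    intro i hi
    rcases hzr (Set.mem_range_self i) with h | h
    · exact absurd h hi
    · exact h
  have hz1 : ∀ i, ‖z i‖ = 1 := by
    intro i
    by_cases hi : T i
    · obtain ⟨y, hy, -, e⟩ := hi
      rw [e]; exact hf1 y hy
    · obtain ⟨-, y, hy, -, e⟩ := hTn i hi
      rw [e, norm_neg]; exact hf1 y hy
  have hinner : ∀ u v : EuclideanSpace ℝ (Fin (m + 1)), ‖u‖ = 1 → ‖v‖ = 1 →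
      inner ℝ u v = 1 - ‖u - v‖ ^ 2 / 2 := by
    intro u v hu hv
    have := norm_sub_sq_real u v
    rw [hu, hv] at this
    linarith
  have hr'0 : 0 < r' := by linarith
  have hr'1 : r' < 1 := by nlinarith
  have hclose : ∀ y y' : EuclideanSpace ℝ (Fin (m + 1)), ‖y‖ ≤ 1 → ‖y'‖ ≤ 1 →
      ‖y - y'‖ ≤ 2 * η → 1 - 2 * r' ^ 2 ≤ inner ℝ (f y) (f y') := by
    intro y y' hy hy' hyy
    rw [hinner _ _ (hf1 y hy) (hf1 y' hy')]
    have h1 := (abs_le.1 (hfd y y' hy hy')).1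
    have h2 : ‖f y - f y'‖ ≤ 2 * r' := by linarith
    have h3 := pow_le_pow_left₀ (norm_nonneg _) h2 2
    linarith
  have hcore := core' z w T hw hz1 hsum hone (2 * r' ^ 2)
    (2 * (1 - r') ^ 2) (by positivity) hr2' ?_ ?_
  · obtain ⟨k, l, hk, hl, hkl, hg, hfin⟩ := hcore
    exact ⟨k, l, hk, hl, hkl.trans hcard, hg, hfin⟩
  · intro i j _ hij
    by_cases hi : T i
    · have hj := hij.1 hi
      obtain ⟨y, hy, hxy, e⟩ := hi
      obtain ⟨y', hy', hxy', e'⟩ := hj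
      rw [e, e']
      apply hclose y y' hy hy'
      have e2 : y - y' = (x - y') - (x - y) := by abel
      rw [e2]
      have := norm_sub_le (x - y') (x - y)
      linarith
    · have hj : ¬ T j := fun h => hi (hij.2 h)
      obtain ⟨-, y, hy, hxy, e⟩ := hTn i hi
      obtain ⟨-, y', hy', hxy', e'⟩ := hTn j hj
      rw [e, e', inner_neg_neg]
      apply hclose y y' hy hy'
      have e2 : y - y' = (x + y) - (x + y') := by abel
      rw [e2]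
      have := norm_sub_le (x + y) (x + y')
      linarith
  · intro i j hi hj
    obtain ⟨y, hy, hxy, e⟩ := hi
    obtain ⟨hx1, y', hy', hxy', e'⟩ := hTn j hj
    rw [e, e', inner_neg_right, hinner _ _ (hf1 y hy) (hf1 y' hy')]
    have h1 := (abs_le.1 (hfd y y' hy hy')).2
    have h2 : 2 - 2 * η ≤ ‖y - y'‖ := by
      have e2 : (2 : ℝ) • x = (y - y') + ((x - y) + (x + y')) := by
        rw [two_smul]; abel
      have e3 : ‖(2 : ℝ) • x‖ = 2 := by rw [norm_smul, hx1]; norm_num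
      have h5 := norm_add_le (y - y') ((x - y) + (x + y'))
      have h6 := norm_add_le (x - y) (x + y')
      rw [← e2, e3] at h5
      linarith
    have h3 : 2 - 2 * r' ≤ ‖f y - f y'‖ := by linarith
    have h4 : (0 : ℝ) ≤ 2 - 2 * r' := by linarith
    have h5 := pow_le_pow_left₀ h4 h3 2
    linarith

/-- **Lower bound, integral form.** -/
theorem lower' (m : ℕ) [Nonempty (sphere (0 : EuclideanSpace ℝ (Fin (m + 1))) 1)] (t : ℝ)
    (ht1 : 2 * t ^ 2 ≤ 1)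
    (hF : (1 - 2 * (1 - t) ^ 2) ^ 2 ≤
      (1 - 2 * t ^ 2 + 2 * t ^ 2 / ((m + 2) / 2 : ℕ)) *
      (1 - 2 * t ^ 2 + 2 * t ^ 2 / ((m + 2) - (m + 2) / 2 : ℕ))) :
    t ≤ ghDist (closedBall (0 : EuclideanSpace ℝ (Fin (m + 1))) 1)
        (sphere (0 : EuclideanSpace ℝ (Fin (m + 1))) 1) := by
  by_contra hcon
  push Not at hcon
  obtain ⟨r', hr1', hr2'⟩ := exists_between hcon
  have hgh : 0 ≤ ghDist (closedBall (0 : EuclideanSpace ℝ (Fin (m + 1))) 1)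
        (sphere (0 : EuclideanSpace ℝ (Fin (m + 1))) 1) := by
    rw [GromovHausdorff.ghDist]; exact dist_nonneg
  have hr0 : 0 < r' := by linarith
  have hsq : r' ^ 2 ≤ t ^ 2 := pow_le_pow_left₀ hr0.le hr2'.le 2
  obtain ⟨k, l, hk, hl, hkl, hg, hfin⟩ := step m r' hr1' (by linarith)
  have hbal := balanced (m + 2) k l hk hl hkl (2 * r' ^ 2) (by positivity) (by linarith)
  have ht2 : t < 1 := by nlinarith
  obtain ⟨p, hp⟩ : ∃ p, p = (m + 2) / 2 := ⟨_, rfl⟩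
  obtain ⟨q, hq⟩ : ∃ q, q = (m + 2) - (m + 2) / 2 := ⟨_, rfl⟩
  rw [← hq, ← hp] at hF hbal
  have hp1 : 1 ≤ p := by omega
  have hq1 : 1 ≤ q := by omega
  have hpR : (1 : ℝ) ≤ p := by exact_mod_cast hp1
  have hqR : (1 : ℝ) ≤ q := by exact_mod_cast hq1
  have mono : ∀ n : ℝ, 1 ≤ n → 0 ≤ 1 - 2 * t ^ 2 + 2 * t ^ 2 / n ∧
      1 - 2 * t ^ 2 + 2 * t ^ 2 / n ≤ 1 - 2 * r' ^ 2 + 2 * r' ^ 2 / n := by
    intro n hn
    have hn0 : 0 < n := by linarith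
    have h1 : 1 / n ≤ 1 := by rw [div_le_one hn0]; exact hn
    have h2 : 0 < 1 / n := by positivity
    have e1 : 2 * t ^ 2 / n = 2 * t ^ 2 * (1 / n) := by ring
    have e2 : 2 * r' ^ 2 / n = 2 * r' ^ 2 * (1 / n) := by ring
    rw [e1, e2]
    constructor
    · have : 0 ≤ 2 * t ^ 2 * (1 / n) := by positivity
      linarith
    · nlinarith
  obtain ⟨a1, a2⟩ := mono p hpR
  obtain ⟨b1, b2⟩ := mono q hqR
  have hab := mul_le_mul a2 b2 b1 (a1.trans a2)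
  have hlt : 1 - 2 * (1 - r') ^ 2 < 1 - 2 * (1 - t) ^ 2 := by nlinarith
  have hlt2 : (1 - 2 * (1 - r') ^ 2) ^ 2 < (1 - 2 * (1 - t) ^ 2) ^ 2 :=
    pow_lt_pow_left₀ hlt hg.le two_ne_zero
  linarith

end Pool.Agent.W128.GHLow
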